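import Pool.Agent.Helper88K9.AS.Main

/-!
# Affine surface-area comparison does not imply volume comparison

For every `n ≥ 3` there are centrally symmetric convex bodies `C₁, C₂` in `ℝ^n` such that
`S(A C₁) ≤ S(A C₂)` for every nonsingular affine map `A` but `Vol C₁ > Vol C₂`. Here `C₂` is the
cross-polytope `∑ |x_i| ≤ 1` and `C₁` is the truncated cross-polytope
`∑ |x_i| ≤ s`, `|x_i| ≤ s - 1/4`, where `s ^ (n-1) = 1 + (n / 3) (1/4) ^ (n-1)`.

The area of a linear image of a facet is computed from the volume of the cone over it, and the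
comparison of all the surface areas is an averaged form of the inequality of Hlawka.
-/

set_option autoImplicit false

open MeasureTheory Set
open Pool.Agent.Helper88K9.AS

namespace Pool.Agent.Results.MP_8228af_gt.TruncatedCrossPolytopes

/-- A convex body: a compact convex set with nonempty interior. -/
def IsConvexBody {n : ℕ} (C : Set (EuclideanSpace ℝ (Fin n))) : Prop :=
  IsCompact C ∧ Convex ℝ C ∧ (interior C).Nonempty

/-- `C` is centrally symmetric: for some `x`, the translate `C - x` is invariant under `y ↦ -y`. -/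
def IsCentrallySymmetric {n : ℕ} (C : Set (EuclideanSpace ℝ (Fin n))) : Prop :=
  ∃ x, ∀ y, x + y ∈ C ↔ x - y ∈ C

/-- The surface area: the `(n - 1)`-dimensional Hausdorff measure (with the Euclidean
normalization) of the boundary. -/
noncomputable def surfaceArea {n : ℕ} (C : Set (EuclideanSpace ℝ (Fin n))) : ENNReal :=
  Measure.euclideanHausdorffMeasure (n - 1) (frontier C)

/-- `C₂` dominates `C₁` in affine surface area. -/
def Dominates {n : ℕ} (C₂ C₁ : Set (EuclideanSpace ℝ (Fin n))) : Prop :=
  ∀ A : EuclideanSpace ℝ (Fin n) ≃ᵃ[ℝ] EuclideanSpace ℝ (Fin n),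
    surfaceArea (A '' C₁) ≤ surfaceArea (A '' C₂)

/-- In every dimension `n ≥ 3` affine surface-area domination of centrally symmetric convex bodies
does not imply the inequality of the volumes. -/
theorem result : ∀ n : ℕ, 3 ≤ n → ∃ C₁ C₂ : Set (EuclideanSpace ℝ (Fin n)),
    IsConvexBody C₁ ∧ IsConvexBody C₂ ∧ IsCentrallySymmetric C₁ ∧ IsCentrallySymmetric C₂ ∧
      Dominates C₂ C₁ ∧ volume C₂ < volume C₁ := by
  intro n hn
  obtain ⟨s, hs1, hs2, hs3, hs4⟩ := exists_s hn
  have hr : (0 : ℝ) < 1 / 4 := by norm_num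
  refine ⟨trunc n s (1 / 4), cross n 1,
    ⟨isCompact_trunc _ _, convex_trunc _ _, interior_trunc_nonempty (by linarith) (by linarith)⟩,
    ⟨isCompact_cross _, convex_cross _, interior_cross_nonempty one_pos⟩, ⟨0, fun y => ?_⟩,
    ⟨0, fun y => ?_⟩, fun A => ?_, volume_lt hr (by linarith) hs3⟩
  · simp only [trunc, zero_add, zero_sub, Set.mem_ofPred_eq, N1_neg, PiLp.neg_apply, abs_neg]
  · simp only [cross, zero_add, zero_sub, Set.mem_ofPred_eq, N1_neg]
  · unfold surfaceArea
    rw [frontier_affine, frontier_affine]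
    exact surf_le hn hr (by linarith) A.linear hs2 hs4

end Pool.Agent.Results.MP_8228af_gt.TruncatedCrossPolytopes
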